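import Mathlib

set_option autoImplicit false
set_option maxHeartbeats 400000

namespace Pool.Agent.Results.MP_5f6a82_al.NoDescent

open SkewPolynomial Filter

/-- The left strong rank condition. -/
def LSRC (A : Type) [Ring A] : Prop :=
  ∀ n : ℕ, 0 < n → ∀ f : (Fin (n + 1) → A) →ₗ[A] (Fin n → A), ¬ Function.Injective f

abbrev R := FreeRing ℕ

noncomputable def sh (n : ℕ) : R →+* R :=
  FreeRing.lift fun i => if i < n then 0 else FreeRing.of (i - n)

noncomputable instance : MulSemiringAction (Multiplicative ℕ) R where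
  smul n r := sh n.toAdd r
  one_smul r := by
    change sh 0 r = RingHom.id R r
    congr 1
    ext i
    simp [sh]
  mul_smul n m r := by
    change sh (n.toAdd + m.toAdd) r = ((sh n.toAdd).comp (sh m.toAdd)) r
    congr 1
    ext i
    simp only [sh, FreeRing.lift_of, RingHom.comp_apply]
    by_cases h : i < m.toAdd
    · rw [if_pos h, if_pos (by omega), map_zero]
    · rw [if_neg h, FreeRing.lift_of]
      split_ifs <;> first | rfl | omega | (congr 1; omega)
  smul_zero n := map_zero (sh n.toAdd)
  smul_add n := map_add (sh n.toAdd)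
  smul_one n := map_one (sh n.toAdd)
  smul_mul n := map_mul (sh n.toAdd)

theorem it (n : ℕ) (r : R) : φ^[n] r = sh n r := φ_iterate_apply n r

theorem surj : Function.Surjective (φ : R →+* R) := fun r =>
  ⟨FreeRing.map Nat.succ r, by
    change ((sh 1).comp (FreeRing.map Nat.succ)) r = RingHom.id R r
    congr 1
    ext i
    simp [sh]⟩

theorem ev (r : R) : ∀ᶠ k in atTop, ∃ z : ℤ, sh k r = z := by
  induction r using FreeRing.induction_on with
  | hn1 => exact Eventually.of_forall fun k => ⟨-1, by simp⟩
  | hb b => exact (eventually_gt_atTop b).mono fun k h => ⟨0, by simp [sh, h]⟩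
  | ha x y hx hy => exact (hx.and hy).mono fun k ⟨⟨a, h⟩, b, h'⟩ => ⟨a + b, by simp [h, h']⟩
  | hm x y hx hy => exact (hx.and hy).mono fun k ⟨⟨a, h⟩, b, h'⟩ => ⟨a * b, by simp [h, h']⟩

noncomputable def io : Polynomial ℤ →ₐ[ℤ] SkewPolynomial R := Polynomial.aeval X

theorem io_mon (n : ℕ) (z : ℤ) : io (Polynomial.monomial n z) = monomial n (z : R) := by
  rw [io, Polynomial.aeval_monomial, ← C_mul_X_pow_eq_monomial, ← CRingHom_eq_C, map_intCast]
  simp

theorem io_coeff (p : Polynomial ℤ) (n : ℕ) : coeff (io p) n = (p.coeff n : R) := by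
  induction p using Polynomial.induction_on' with
  | add p q hp hq => rw [map_add, Polynomial.coeff_add, Int.cast_add, ← hp, ← hq]; simp [coeff]
  | monomial m a => rw [io_mon, coeff_monomial, Polynomial.coeff_monomial]; split_ifs <;> simp

theorem io_inj (p : Polynomial ℤ) (h : io p = 0) : p = 0 := by
  ext n
  have := congrArg (FreeRing.lift fun _ : ℕ => (0 : ℤ)) (io_coeff p n)
  simpa [h] using this.symm

theorem ev2 (a : SkewPolynomial R) : ∀ᶠ k in atTop, ∃ p, io p = X ^ k * a := by
  induction a using SkewPolynomial.induction with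
  | h0 => exact Eventually.of_forall fun k => ⟨0, by simp⟩
  | ha n r q _ _ hq =>
    refine (hq.and (ev r)).mono fun k ⟨⟨p, h⟩, z, h'⟩ => ⟨Polynomial.monomial (n + k) z + p, ?_⟩
    rw [map_add, io_mon, h, mul_add, X_pow_mul_monomial, it, h']

theorem lsrc : LSRC (SkewPolynomial R) := by
  intro n _ f hf
  obtain ⟨k, hk⟩ := (eventually_all.2 fun i => eventually_all.2 fun j =>
    ev2 (f (Pi.single i 1) j)).exists
  choose w hw using hk
  have h1 : ¬ LinearIndependent (Polynomial ℤ) w := fun h => by
    simpa using h.fintype_card_le_finrank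
  obtain ⟨p, hp, i, hi⟩ := Fintype.not_linearIndependent_iff.1 h1
  have h2 : f (∑ i, (io (p i) * X ^ k) • Pi.single i 1) = f 0 := by
    ext j
    have := congrArg (fun v => io (v j)) hp
    simp only [Finset.sum_apply, Pi.smul_apply, smul_eq_mul, map_sum, map_mul, hw, Pi.zero_apply,
      map_zero] at this
    simp only [map_sum, map_smul, Finset.sum_apply, Pi.smul_apply, smul_eq_mul, mul_assoc, this,
      map_zero, Pi.zero_apply]
  have h3 := congrFun (hf h2) i
  simp only [Finset.sum_apply, Pi.smul_apply, smul_eq_mul, Pi.single_apply, mul_ite, mul_one,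
    mul_zero, Finset.sum_ite_eq, Finset.mem_univ, if_true, Pi.zero_apply] at h3
  have h4 := io_inj (p i * Polynomial.X ^ k) (by rw [map_mul, map_pow, ← h3]; simp [io])
  simp [hi] at h4

noncomputable def D (j : ℕ) : R →+* Matrix (Fin 2) (Fin 2) R :=
  FreeRing.lift fun i => !![FreeRing.of i, if i = j then 1 else 0; 0, 0]

theorem D_00 (j : ℕ) (r : R) : D j r 0 0 = r ∧ D j r 1 0 = 0 := by
  induction r using FreeRing.induction_on with
  | hn1 => simp
  | hb b => simp [D]
  | ha x y hx hy => simp [hx, hy]
  | hm x y hx hy => simp [Matrix.mul_apply, hx, hy]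

theorem not_lsrc : ¬ LSRC R := by
  intro h
  refine h 1 one_pos (LinearMap.pi fun _ => Fintype.linearCombination R fun i => FreeRing.of i.1)
    ((injective_iff_map_eq_zero _).2 fun v hv => ?_)
  have h1 : v 0 * FreeRing.of 0 + v 1 * FreeRing.of 1 = 0 := by
    simpa [Fintype.linearCombination_apply] using congrFun hv 0
  have h2 := congrArg (fun r => D 0 r 0 1) h1
  have h3 := congrArg (fun r => D 1 r 0 1) h1
  simp only [map_add, map_mul, Matrix.add_apply, Matrix.mul_apply, Fin.sum_univ_two, D_00] at h2 h3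
  ext i
  fin_cases i
  · simpa [D] using h2
  · simpa [D] using h3

theorem result : ∃ (R : Type) (_ : Ring R) (_ : MulSemiringAction (Multiplicative ℕ) R),
    Function.Surjective (SkewPolynomial.φ : R →+* R) ∧ LSRC (SkewPolynomial R) ∧ ¬ LSRC R :=
  ⟨R, inferInstance, inferInstance, surj, lsrc, not_lsrc⟩

end Pool.Agent.Results.MP_5f6a82_al.NoDescent
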